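import Mathlib
import Pool.Agent.V1110.MlE
import Pool.Agent.V60.FSA
import Pool.Agent.TH842.A3.Uni
import Pool.Agent.Results.MP_7e9a3a_nt.DigitRelations

set_option autoImplicit false

/-!
# Words in the expansions of almost all the multiples of a real number

Let `b ≥ 2`, `k ≥ 1`, `δ > 0`.  There are `R₀`, `P`, `C` such that for all real numbers `x`, `y`, all
`N` and all `R ≥ R₀` all but at most `δ R` of the numbers `n x + y`, `n < R`, have the following
property: every word of `k` digits stands at least `F / C - 1` times among the first `N` digits of the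
base-`b` expansion of `n x + y`, where `F` is the number of the places `κ ≤ N` with
`a_(κ+P) ≠ a_κ`, for the digits `a_κ` of `x`.

For real algebraic irrational numbers `x` this gives at least `c (log N)^3 / (log log N)^5`
occurrences of every word in every base, and `c N^η` occurrences in suitable bases (those prime to
`p`, if all primes of `ℚ(x)` above `p` are ramified), by lower bounds for `F` of the starting library.
-/

namespace Pool.Agent.Results.MP_5b6025_nt.AlmostAllMultiples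

open Finset Pool.Agent NumberField IntermediateField Filter

/-- the `i`-th digit (`i ≥ 1`) after the point of the real number `z` in base `b` -/
noncomputable def digit (b : ℕ) (z : ℝ) (i : ℕ) : ℤ := ⌊(b : ℝ) ^ i * z⌋ % (b : ℤ)

open Classical in
/-- `A_N(z, w)`: the number of positions `1 ≤ i ≤ N` at which the word `w` stands in the expansion
of `z` in base `b` -/
noncomputable def A (b : ℕ) (z : ℝ) {k : ℕ} (w : Fin k → Fin b) (N : ℕ) : ℕ :=
  ((Icc 1 N).filter fun i : ℕ => ∀ j : Fin k, digit b z (i + j) = ((w j : ℕ) : ℤ)).card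

/-- the number of the places `1 ≤ κ ≤ N` with `a_(κ+P) ≠ a_κ`, for the digits `a_κ` of `x` -/
noncomputable def failures (b P : ℕ) (x : ℝ) (N : ℕ) : ℕ :=
  ((Icc 1 N).filter fun κ : ℕ => digit b x (κ + P) ≠ digit b x κ).card

/-- For some `c > 0`, all large `N`, all `R ≥ R₀` and all real `y`: all but at most `δ R` of the
numbers `n x + y`, `n < R`, contain every word of `k` digits at least `c f(N)` times among their
first `N` base-`b` digits. -/
def Words (b k : ℕ) (δ : ℝ) (R₀ : ℕ) (x : ℝ) (f : ℕ → ℝ) : Prop :=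
  ∃ c : ℝ, 0 < c ∧ ∃ N₀ : ℕ, ∀ N : ℕ, N₀ ≤ N → ∀ R : ℕ, R₀ ≤ R → ∀ y : ℝ,
    (Nat.card {n : Fin R // ∃ w : Fin k → Fin b, (A b (n * x + y) w N : ℝ) < c * f N} : ℝ) ≤ δ * R

theorem digit_of {b k : ℕ} (hb : 2 ≤ b) (z : ℝ) (w : Fin k → Fin b) (i : ℕ)
    (h : ⌊(b : ℝ) ^ (i + k) * z⌋ % ((b : ℤ) ^ k) =
      (((finFunctionFinEquiv fun t => w (Fin.rev t) : Fin (b ^ k)) : ℕ) : ℤ)) (j : Fin k) :
    digit b z (i + 1 + j) = ((w j : ℕ) : ℤ) := by
  obtain ⟨v, hv⟩ : ∃ v : Fin (b ^ k), v = finFunctionFinEquiv fun t => w (Fin.rev t) := ⟨_, rfl⟩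
  rw [← hv] at h
  have hjk : (j : ℕ) < k := j.2
  obtain ⟨s, hs⟩ : ∃ s : ℕ, s = k - (j + 1) := ⟨_, rfl⟩
  have hbR : (0 : ℝ) < b := by
    have : 0 < b := by omega
    exact_mod_cast this
  have hbZ : (0 : ℤ) < b := by
    have : 0 < b := by omega
    exact_mod_cast this
  obtain ⟨X, hX⟩ : ∃ X, X = ⌊(b : ℝ) ^ (i + k) * z⌋ := ⟨_, rfl⟩
  rw [← hX] at h
  have e1 : ⌊(b : ℝ) ^ (i + 1 + j) * z⌋ = X / ((b : ℤ) ^ s) := by
    have h1 : (b : ℝ) ^ (i + 1 + (j : ℕ)) * z = (b : ℝ) ^ (i + k) * z / ((b ^ s : ℕ) : ℝ) := by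
      have h2 : i + k = (i + 1 + j) + s := by omega
      rw [h2, pow_add _ (i + 1 + (j : ℕ)) s]
      push_cast
      rw [eq_div_iff (by positivity)]
      ring
    rw [h1, Int.floor_div_natCast, hX]
    push_cast
    rfl
  have e2 : X = (v : ℕ) + (b : ℤ) ^ s * ((b : ℤ) * ((b : ℤ) ^ (j : ℕ) * (X / (b : ℤ) ^ k))) := by
    have h1 := Int.emod_add_mul_ediv X ((b : ℤ) ^ k)
    rw [h] at h1
    have h2 : (b : ℤ) ^ k = (b : ℤ) ^ s * ((b : ℤ) * (b : ℤ) ^ (j : ℕ)) := by
      rw [← pow_succ', ← pow_add]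
      congr 1
      omega
    calc X = ((v : ℕ) : ℤ) + (b : ℤ) ^ k * (X / (b : ℤ) ^ k) := h1.symm
      _ = ((v : ℕ) : ℤ) + (b : ℤ) ^ s * ((b : ℤ) * ((b : ℤ) ^ (j : ℕ) * (X / (b : ℤ) ^ k))) := by
          rw [show (b : ℤ) ^ s * ((b : ℤ) * ((b : ℤ) ^ (j : ℕ) * (X / (b : ℤ) ^ k))) =
            ((b : ℤ) ^ s * ((b : ℤ) * (b : ℤ) ^ (j : ℕ))) * (X / (b : ℤ) ^ k) by ring, ← h2]
  have e3 : X / ((b : ℤ) ^ s) = ((v : ℕ) : ℤ) / (b : ℤ) ^ s +
      (b : ℤ) * ((b : ℤ) ^ (j : ℕ) * (X / (b : ℤ) ^ k)) := by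
    conv_lhs => rw [e2]
    exact Int.add_mul_ediv_left _ _ (pow_pos hbZ _).ne'
  unfold digit
  rw [e1, e3, Int.add_mul_emod_self_left]
  have e4 : (finFunctionFinEquiv.symm v : Fin k → Fin b) (Fin.rev j) = w j := by
    rw [hv, Equiv.symm_apply_apply, Fin.rev_rev]
  have e5 : (v : ℕ) / b ^ s % b = (w j : ℕ) := by
    have h1 := congrArg Fin.val e4
    rw [← h1, hs, ← Fin.val_rev]
    rfl
  rw [← e5]
  push_cast
  rfl

theorem count_le {b k : ℕ} (hb : 2 ≤ b) (z : ℝ) (w : Fin k → Fin b) (N : ℕ) :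
    ((range N).filter fun i : ℕ => ⌊(b : ℝ) ^ (i + k) * z⌋ % ((b : ℤ) ^ k) =
      (((finFunctionFinEquiv fun t => w (Fin.rev t) : Fin (b ^ k)) : ℕ) : ℤ)).card ≤
      A b z w N := by
  classical
  unfold A
  refine card_le_card_of_injOn (fun i => i + 1) ?_ (fun i _ j _ h => Nat.succ_injective h)
  intro i hi
  rw [mem_coe, mem_filter, mem_range] at hi
  rw [mem_coe, mem_filter, mem_Icc]
  exact ⟨⟨Nat.succ_le_succ (Nat.zero_le _), hi.1⟩, fun j => digit_of hb z w i hi.2 j⟩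

/-- the general theorem -/
theorem general {b k : ℕ} (hb : 2 ≤ b) (hk : 1 ≤ k) {δ : ℝ} (hδ : 0 < δ) :
    ∃ R₀ P C : ℕ, 1 ≤ P ∧ 1 ≤ C ∧ ∀ (x y : ℝ) (N R : ℕ), R₀ ≤ R →
      (Nat.card {n : Fin R // ∃ w : Fin k → Fin b,
        C * (A b (n * x + y) w N + 1) < failures b P x N} : ℝ) ≤ δ * R := by
  classical
  obtain ⟨R₀, P, C, hP, hC, h⟩ := Pool.Agent.V1110.Ml.main2 hb hk hδ
  refine ⟨R₀, P, C, hP, hC, fun x y N R hR => le_trans ?_ (h x y N R hR)⟩
  rw [Nat.card_eq_fintype_card, Fintype.card_subtype]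
  have h' : ((univ : Finset (Fin R)).filter fun n : Fin R => ∃ w : Fin k → Fin b,
      C * (A b ((n : ℕ) * x + y) w N + 1) < failures b P x N).card ≤
      ((range R).filter fun n : ℕ => ∃ W < b ^ k, C * (((range N).filter fun i : ℕ =>
          ⌊(b : ℝ) ^ (i + k) * (n * x + y)⌋ % ((b : ℤ) ^ k) = (W : ℤ)).card + 1) <
            Pool.Agent.V1110.Ml.fails b P x N).card := by
    refine card_le_card_of_injOn (fun n : Fin R => (n : ℕ)) ?_ (Fin.val_injective.injOn)
    intro n hn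
    rw [mem_coe, mem_filter] at hn
    obtain ⟨w, hw⟩ := hn.2
    rw [mem_coe, mem_filter, mem_range]
    refine ⟨n.2, ((finFunctionFinEquiv fun t => w (Fin.rev t) : Fin (b ^ k)) : ℕ),
      (finFunctionFinEquiv fun t => w (Fin.rev t) : Fin (b ^ k)).2, lt_of_le_of_lt ?_ hw⟩
    exact Nat.mul_le_mul_left _ (Nat.add_le_add_right (count_le hb ((n : ℕ) * x + y) w N) 1)
  exact_mod_cast h'

/-- passage to the limit -/
theorem transfer {b k : ℕ} (hb : 2 ≤ b) (hk : 1 ≤ k) {δ : ℝ} (hδ : 0 < δ) :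
    ∃ R₀ P : ℕ, 1 ≤ P ∧ ∀ (x : ℝ) (f : ℕ → ℝ), Tendsto f atTop atTop → ∀ c : ℝ, 0 < c →
      (∀ᶠ N : ℕ in atTop, c * f N ≤ failures b P x N) → Words b k δ R₀ x f := by
  obtain ⟨R₀, P, C, hP, hC, h⟩ := general hb hk hδ
  refine ⟨R₀, P, hP, fun x f hf c hc hF => ?_⟩
  have hCR : (1 : ℝ) ≤ C := by exact_mod_cast hC
  have hCR0 : (0 : ℝ) < C := by linarith
  obtain ⟨N₀, hN₀⟩ := eventually_atTop.1 (hF.and (hf.eventually_ge_atTop (2 * C / c)))
  refine ⟨c / (2 * C), by positivity, N₀, fun N hN R hR y => le_trans ?_ (h x y N R hR)⟩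
  obtain ⟨h1, h2⟩ := hN₀ N hN
  have hle : Nat.card {n : Fin R // ∃ w : Fin k → Fin b,
      (A b (n * x + y) w N : ℝ) < c / (2 * C) * f N} ≤
      Nat.card {n : Fin R // ∃ w : Fin k → Fin b,
        C * (A b (n * x + y) w N + 1) < failures b P x N} := by
    refine Nat.card_le_card_of_injective (fun n => ⟨n.1, ?_⟩) ?_
    · obtain ⟨w, hw⟩ := n.2
      refine ⟨w, ?_⟩
      have h3 : (C : ℝ) * ((A b ((n.1 : ℕ) * x + y) w N : ℝ) + 1) < failures b P x N := by
        refine lt_of_lt_of_le ?_ h1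
        have h4 : (C : ℝ) * (A b ((n.1 : ℕ) * x + y) w N : ℝ) < C * (c / (2 * C) * f N) :=
          mul_lt_mul_of_pos_left hw hCR0
        have h5 : (C : ℝ) * (c / (2 * C) * f N) = c * f N / 2 := by
          field_simp
        have h6 : (C : ℝ) ≤ c * f N / 2 := by
          rw [div_le_iff₀ hc] at h2
          linarith
        rw [mul_add, mul_one]
        linarith
      exact_mod_cast h3
    · intro n n' hnn
      exact Subtype.ext (congrArg (fun t => t.1) hnn)
  exact_mod_cast hle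

theorem digit_eq (b : ℕ) (x : ℝ) (i : ℕ) : V60.FSP.dg b x i = digit b x i := by
  unfold V60.FSP.dg digit
  rw [mul_comm]

/-- all algebraic irrational numbers -/
theorem algebraic (x : ℝ) (halg : IsAlgebraic ℚ x) (hirr : Irrational x) (b : ℕ) (hb : 2 ≤ b)
    (P : ℕ) (hP : 1 ≤ P) :
    ∃ c : ℝ, 0 < c ∧ ∀ᶠ N : ℕ in atTop,
      c * ((Real.log N) ^ 3 / (Real.log (Real.log N)) ^ 5) ≤ failures b P x N := by
  obtain ⟨c, hc, N₀, h⟩ := Pool.Agent.TH842.A3.Uni.relations_one x halg hirr b hb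
    (fun k => if k = 0 then ⌊x⌋ else V60.FSP.dg b x k) (|⌊x⌋| + b) (fun k => by
      split_ifs
      · have : (0 : ℤ) ≤ b := Int.natCast_nonneg b
        linarith
      · have h3 : 0 ≤ V60.FSP.dg b x k := Int.emod_nonneg _ (by omega)
        have h4 : V60.FSP.dg b x k < b := Int.emod_lt_of_pos _ (by omega)
        rw [abs_of_nonneg h3]
        have := abs_nonneg ⌊x⌋
        linarith) (V60.FSA.hasSum_digits b hb x) P
    (fun j => if j = 0 then -1 else if j = P then 1 else 0)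
    ⟨0, Nat.zero_le _, by norm_num⟩ 0
  refine ⟨c, hc, eventually_atTop.2 ⟨N₀, fun N hN => ?_⟩⟩
  have h1 := h N hN
  rw [mul_div_assoc] at h1
  refine h1.trans (le_of_eq ?_)
  unfold failures
  congr 2
  apply Finset.filter_congr
  intro k hk
  rw [mem_Icc] at hk
  have e1 : ∑ j ∈ range (P + 1),
      (if j = 0 then (-1 : ℤ) else if j = P then 1 else 0) *
        (if k + j = 0 then ⌊x⌋ else V60.FSP.dg b x (k + j)) =
      V60.FSP.dg b x (k + P) - V60.FSP.dg b x k := by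
    rw [sum_range_succ, if_neg (by omega), if_pos rfl, if_neg (by omega), one_mul]
    have e2 : ∑ j ∈ range P,
        (if j = 0 then (-1 : ℤ) else if j = P then 1 else 0) *
          (if k + j = 0 then ⌊x⌋ else V60.FSP.dg b x (k + j)) = - V60.FSP.dg b x k := by
      rw [sum_eq_single_of_mem 0 (mem_range.2 hP)]
      · rw [if_pos rfl, if_neg (by omega), Nat.add_zero]
        ring
      · intro j hj hj0
        rw [mem_range] at hj
        rw [if_neg hj0, if_neg (by omega), zero_mul]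
    rw [e2]
    ring
  rw [e1, Ne, sub_eq_zero, digit_eq, digit_eq]

/-- suitable bases -/
theorem power (x : ℝ) (b : ℕ) (hb : 2 ≤ b)
    (hx : Pool.Agent.Results.MP_7e9a3a_nt.DigitRelations.RelationsFail x b) (P : ℕ) (hP : 1 ≤ P) :
    ∃ c η : ℝ, 0 < c ∧ 0 < η ∧ ∀ᶠ N : ℕ in atTop, c * (N : ℝ) ^ η ≤ failures b P x N := by
  obtain ⟨c, η, hc, hη, h⟩ := hx P
    (fun j => if j = 0 then -1 else if j = P then 1 else 0) 0 (by
      rw [sum_range_succ, if_neg (by omega), if_pos rfl, one_mul,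
        sum_eq_single_of_mem 0 (mem_range.2 hP)]
      · rw [if_pos rfl, pow_zero]
        have : (1 : ℤ) < (b : ℤ) ^ P := one_lt_pow₀ (by exact_mod_cast hb) (by omega)
        intro h0
        linarith
      · intro j hj hj0
        rw [mem_range] at hj
        rw [if_neg hj0, if_neg (by omega), zero_mul])
  refine ⟨c, η, hc, hη, h.mono fun N hN => hN.trans ?_⟩
  have hle : ((Finset.range N).filter (fun k : ℕ =>
      ∑ j ∈ Finset.range (P + 1),
        (if j = 0 then (-1 : ℤ) else if j = P then 1 else 0) *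
          Pool.Agent.Results.MP_7e9a3a_nt.DigitRelations.digit x b (k + 1 + j) ≠ 0)).card ≤
      failures b P x N := by
    unfold failures
    apply card_le_card_of_injOn (fun k => k + 1)
    · intro k hk
      rw [mem_coe, mem_filter, mem_range] at hk
      rw [mem_coe, mem_filter, mem_Icc]
      have hkN := hk.1
      refine ⟨⟨Nat.succ_pos k, hkN⟩, fun h0 => hk.2 ?_⟩
      rw [sum_range_succ, if_neg (by omega), if_pos rfl, one_mul,
        sum_eq_single_of_mem 0 (mem_range.2 hP)]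
      · rw [if_pos rfl, Nat.add_zero]
        have e1 : Pool.Agent.Results.MP_7e9a3a_nt.DigitRelations.digit x b (k + 1) =
            digit b x (k + 1) := digit_eq b x (k + 1)
        have e2 : Pool.Agent.Results.MP_7e9a3a_nt.DigitRelations.digit x b (k + 1 + P) =
            digit b x (k + 1 + P) := digit_eq b x (k + 1 + P)
        have h1 : digit b x (k + 1 + P) = digit b x (k + 1) := h0
        rw [e1, e2, h1]
        ring
      · intro j hj hj0
        rw [mem_range] at hj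
        rw [if_neg hj0, if_neg (by omega), zero_mul]
    · intro k _ k' _ h0
      have h1 : k + 1 = k' + 1 := h0
      omega
  exact_mod_cast hle

/-- In base `b` the words of every length `k` occur at least `c N^η` times, `c, η > 0`, in almost all
multiples (all but a proportion `δ`, as small as we please). -/
def PowerWords (b : ℕ) (x : ℝ) : Prop :=
  ∀ k : ℕ, 1 ≤ k → ∀ δ : ℝ, 0 < δ → ∃ R₀ : ℕ, ∃ η : ℝ, 0 < η ∧
    Words b k δ R₀ x (fun N => (N : ℝ) ^ η)

theorem powerWords (x : ℝ) (b : ℕ) (hb : 2 ≤ b)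
    (hx : Pool.Agent.Results.MP_7e9a3a_nt.DigitRelations.RelationsFail x b) : PowerWords b x := by
  intro k hk δ hδ
  obtain ⟨R₀, P, hP, h⟩ := transfer hb hk hδ
  obtain ⟨c, η, hc, hη, hF⟩ := power x b hb hx P hP
  exact ⟨R₀, η, hη, h x _ ((tendsto_rpow_atTop hη).comp tendsto_natCast_atTop_atTop) c hc hF⟩

/-- **Words in the expansions of almost all the multiples of a real number.**
(1) For all `b ≥ 2`, `k ≥ 1`, `δ > 0` there are `R₀`, `P`, `C` such that for all real `x`, `y`, all `N`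
and `R ≥ R₀`, for all but at most `δ R` of the `n < R`, every word of `k` digits occurs at least
`F / C - 1` times among the first `N` digits of `n x + y`, `F` the number of `κ ≤ N` with
`a_(κ+P) ≠ a_κ`.
(2) For all `b ≥ 2`, `k ≥ 1`, `δ > 0` there is `R₀` such that this holds with
`c (log N)^3 / (log log N)^5` for all real algebraic irrational `x`, with `c = c(x, b, k, δ) > 0`.
(3) If `x` is algebraic and all primes of `ℚ(x)` above the prime `p` are ramified, then in all bases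
`b` not divisible by `p` it holds with `c N^η`, `c, η > 0`.
(4) If `x` is algebraic and `ℚ(x)` has a subfield `L ≠ ℚ` which is Galois over `ℚ`, then there is
a prime `p` such that this holds in all bases `b` not divisible by `p`. -/
theorem result :
    (∀ b k : ℕ, 2 ≤ b → 1 ≤ k → ∀ δ : ℝ, 0 < δ → ∃ R₀ P C : ℕ, 1 ≤ P ∧ 1 ≤ C ∧
      ∀ (x y : ℝ) (N R : ℕ), R₀ ≤ R →
        (Nat.card {n : Fin R // ∃ w : Fin k → Fin b,
          C * (A b (n * x + y) w N + 1) < failures b P x N} : ℝ) ≤ δ * R) ∧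
    (∀ b k : ℕ, 2 ≤ b → 1 ≤ k → ∀ δ : ℝ, 0 < δ → ∃ R₀ : ℕ, ∀ x : ℝ, IsAlgebraic ℚ x →
      Irrational x → Words b k δ R₀ x
        (fun N => (Real.log N) ^ 3 / (Real.log (Real.log N)) ^ 5)) ∧
    (∀ x : ℝ, IsAlgebraic ℚ x →
      (∀ p : ℕ, p.Prime →
        (∀ P : Ideal (𝓞 ℚ⟮x⟯), P.IsPrime → (p : 𝓞 ℚ⟮x⟯) ∈ P → (p : 𝓞 ℚ⟮x⟯) ∈ P ^ 2) →
        ∀ b : ℕ, 2 ≤ b → ¬ p ∣ b → PowerWords b x) ∧
      (∀ L : IntermediateField ℚ ℚ⟮x⟯, L ≠ ⊥ → IsGalois ℚ L → ∃ p : ℕ, p.Prime ∧
        ∀ b : ℕ, 2 ≤ b → ¬ p ∣ b → PowerWords b x)) := by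
  refine ⟨fun b k hb hk δ hδ => general hb hk hδ, fun b k hb hk δ hδ => ?_, fun x halg => ?_⟩
  · obtain ⟨R₀, P, hP, h⟩ := transfer hb hk hδ
    refine ⟨R₀, fun x halg hirr => ?_⟩
    obtain ⟨c, hc, hF⟩ := algebraic x halg hirr b hb P hP
    exact h x _ V60.FSA.tendsto_log c hc hF
  · obtain ⟨h1, h2⟩ := Pool.Agent.Results.MP_7e9a3a_nt.DigitRelations.result x halg
    refine ⟨fun p hp hram b hb hpb => powerWords x b hb (h1 p hp hram b hb hpb),
      fun L hL hgal => ?_⟩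
    obtain ⟨p, hp, h⟩ := h2 L hL hgal
    exact ⟨p, hp, fun b hb hpb => powerWords x b hb (h b hb hpb)⟩

end Pool.Agent.Results.MP_5b6025_nt.AlmostAllMultiples
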