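import Pool.Agent.V1121.PG.Padic
import Pool.Agent.V1121.PG.EPow

set_option autoImplicit false
set_option maxHeartbeats 4000000

/-! # MP_5b6025_nt: numbers with missing words in small bases have no additive structure

Fix `G ≥ 2` and `K ≥ 1`. Call a real number exceptional if for some base `g ≤ G` some word of `K` digits stands only
finitely often in its expansion in base `g`. We prove that a finite set of exceptional numbers, no two of which differ by
a rational number (for example a set of multiples `m α` of an irrational algebraic number `α`), has few additive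
quadruples: if `N` exceptional numbers have at least `N ^ 3 / T` additive quadruples `a + b = c + d` then
`log N ≤ C (1 + log T) ^ (2 + η)`, for every `η > 0`.

Proof: on arithmetic progressions with irrational differences there is a power saving for the number of exceptional
terms (starting library, `Y940/PA`); the Balog–Szemerédi–Gowers theorem and a theorem of Freiman type
(`V1121/PG/EPow`, `V1121/PG/Few`) give the result.
-/

open scoped Pointwise

namespace Pool.Agent.Results.MP_5b6025_nt.ExceptionalEnergy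

/-- the `j`-th digit of `y` after the point in base `g` -/
noncomputable def digit (g : ℕ) (y : ℝ) (j : ℕ) : ℤ := ⌊y * (g : ℝ) ^ j⌋ % (g : ℤ)

/-- the word `w` of `K` digits stands in the expansion of `y` in base `g` right after the `i`-th digit -/
def Stands (g K : ℕ) (w : Fin K → Fin g) (y : ℝ) (i : ℕ) : Prop :=
  ∀ s : Fin K, digit g y (i + s + 1) = ((w s : ℕ) : ℤ)

/-- every word of `K` digits stands infinitely often in the expansion of `y` in base `g` -/
def AllWords (g K : ℕ) (y : ℝ) : Prop :=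
  ∀ w : Fin K → Fin g, {i : ℕ | Stands g K w y i}.Infinite

/-- in some base `g ≤ G` some word of `K` digits stands only finitely often in the expansion of `y` -/
def Exceptional (G K : ℕ) (y : ℝ) : Prop := ∃ g : ℕ, 2 ≤ g ∧ g ≤ G ∧ ¬ AllWords g K y

/-- no two different elements of `A` differ by a rational number -/
def Free (A : Finset ℝ) : Prop := ∀ x ∈ A, ∀ y ∈ A, x ≠ y → Irrational (x - y)

open Pool.Agent.TH869.PAL Pool.Agent.Y940.PA Pool.Agent.V1121.PG

lemma floor_div (z : ℝ) (b : ℕ) (hb : 0 < b) : ⌊z / b⌋ = ⌊z⌋ / (b : ℤ) := by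
  have hbR : (0:ℝ) < b := by exact_mod_cast hb
  have hbZ : (0:ℤ) < b := by exact_mod_cast hb
  rw [Int.floor_eq_iff]
  have h1 := Int.floor_le z
  have h2 := Int.lt_floor_add_one z
  have h3 := Int.emod_nonneg ⌊z⌋ hbZ.ne'
  have h4 := Int.emod_lt_of_pos ⌊z⌋ hbZ
  have h5 := Int.mul_ediv_add_emod ⌊z⌋ (b:ℤ)
  have h5' : (b:ℝ) * ((⌊z⌋ / (b:ℤ) : ℤ) : ℝ) + ((⌊z⌋ % (b:ℤ) : ℤ) : ℝ) = (⌊z⌋ : ℝ) := by exact_mod_cast h5
  have h3' : (0:ℝ) ≤ ((⌊z⌋ % (b:ℤ) : ℤ) : ℝ) := by exact_mod_cast h3
  have h4' : ((⌊z⌋ % (b:ℤ) : ℤ) : ℝ) + 1 ≤ (b:ℝ) := by exact_mod_cast h4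
  constructor
  · rw [le_div_iff₀ hbR]
    nlinarith
  · rw [div_lt_iff₀ hbR]
    nlinarith

lemma stands_of_near (g K : ℕ) (hg : 2 ≤ g) (w : Fin K → Fin g) (y : ℝ) (i : ℕ) (n : ℤ)
    (h : |((g:ℝ)^i * y - (((finFunctionFinEquiv (fun t => w t.rev) : Fin (g ^ K)) : ℕ) + 1/2) / (g:ℝ)^K) - n| <
      1 / (2 * (g:ℝ)^K)) : Stands g K w y i := by
  obtain ⟨v, hv⟩ : ∃ v : Fin (g^K), v = finFunctionFinEquiv (fun t => w t.rev) := ⟨_, rfl⟩
  rw [← hv] at h
  have hg0 : (0:ℝ) < g := by exact_mod_cast (by omega : 0 < g)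
  have hgK : (0:ℝ) < (g:ℝ)^K := by positivity
  have hfl : ⌊y * (g:ℝ)^(i+K)⌋ = (g:ℤ)^K * n + ((v : ℕ) : ℤ) := by
    rw [Int.floor_eq_iff]
    rw [abs_lt] at h
    obtain ⟨h1, h2⟩ := h
    have e1 : y * (g:ℝ)^(i+K) = (g:ℝ)^K * ((g:ℝ)^i * y) := by rw [pow_add]; ring
    have e2 : (g:ℝ)^K * ((((v:ℕ):ℝ) + 1/2) / (g:ℝ)^K) = ((v:ℕ):ℝ) + 1/2 := by
      field_simp
    have e3 : (g:ℝ)^K * (1 / (2 * (g:ℝ)^K)) = 1/2 := by
      field_simp
    have h1' := mul_lt_mul_of_pos_left h1 hgK
    have h2' := mul_lt_mul_of_pos_left h2 hgK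
    have e4 : (g:ℝ)^K * (((g:ℝ)^i * y - (((v:ℕ):ℝ) + 1/2) / (g:ℝ)^K) - n) =
      y * (g:ℝ)^(i+K) - (((v:ℕ):ℝ) + 1/2) - (g:ℝ)^K * n := by
      rw [mul_sub, mul_sub, e2, e1]
    rw [e4] at h1' h2'
    rw [mul_neg, e3] at h1'
    rw [e3] at h2'
    push_cast
    constructor <;> linarith
  intro s
  unfold digit
  obtain ⟨j, hj⟩ : ∃ j : ℕ, j = ((Fin.rev s : Fin K) : ℕ) := ⟨_, rfl⟩
  have hjK : j + s + 1 = K := by
    rw [hj, Fin.val_rev]
    have := s.2
    omega
  have e5 : y * (g:ℝ)^(i + s + 1) = y * (g:ℝ)^(i+K) / ((g^j : ℕ) : ℝ) := by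
    have : i + K = (i + s + 1) + j := by omega
    rw [this, pow_add _ (i + s + 1) j]
    push_cast
    field_simp
  rw [e5, floor_div _ _ (by positivity), hfl]
  have e6 : (g:ℤ)^K * n + ((v : ℕ) : ℤ) = ((v:ℕ):ℤ) + ((g^j : ℕ):ℤ) * ((g:ℤ) * ((g:ℤ)^(s:ℕ) * n)) := by
    have : (g:ℤ)^K = (g:ℤ)^j * ((g:ℤ) * (g:ℤ)^(s:ℕ)) := by
      rw [← pow_succ', ← pow_add]
      congr 1
      omega
    rw [this]
    push_cast
    ring
  have hgj : ((g^j : ℕ):ℤ) ≠ 0 := by
    have : 0 < g^j := by positivity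
    exact_mod_cast this.ne'
  rw [e6, Int.add_mul_ediv_left _ _ hgj, Int.add_mul_emod_self_left]
  have e7 : (((v:ℕ):ℤ) / ((g^j:ℕ):ℤ)) % (g:ℤ) = (((v:ℕ) / g^j % g : ℕ) : ℤ) := by push_cast; rfl
  rw [e7]
  have e8 : finFunctionFinEquiv.symm v (Fin.rev s) = w s := by
    rw [hv, Equiv.symm_apply_apply, Fin.rev_rev]
  have e9 : ((finFunctionFinEquiv.symm v (Fin.rev s) : Fin g) : ℕ) = (v:ℕ) / g^j % g := by
    rw [hj]; rfl
  rw [← e9, e8]

lemma badP_of_not {g K : ℕ} (hg : 2 ≤ g) {y : ℝ} (h : ¬ AllWords g K y) :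
    BadP g (1 / (2 * (g:ℝ)^K)) y := by
  unfold AllWords at h
  push Not at h
  obtain ⟨w, hw⟩ := h
  obtain ⟨I, hI⟩ := hw.bddAbove
  refine ⟨(((finFunctionFinEquiv (fun t => w t.rev) : Fin (g ^ K)) : ℕ) + 1/2) / (g:ℝ)^K, I + 1, ?_⟩
  intro i hi n
  by_contra hcon
  push Not at hcon
  have h1 := stands_of_near g K hg w y i n hcon
  have h2 : i ≤ I := hI h1
  omega

open Classical in
/-- power saving on arithmetic progressions, all bases `g ≤ G` -/
theorem ap_all (G K : ℕ) (hG : 2 ≤ G) (hK : 1 ≤ K) : ∃ D c : ℝ, 0 ≤ D ∧ 0 < c ∧ c ≤ 1 ∧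
    ∀ x θ : ℝ, θ ∉ {t : ℝ | ¬ Irrational t} → ∀ L : ℕ, 1 ≤ L →
      (((Finset.range L).filter (fun j : ℕ => x + j • θ ∈ {y | Exceptional G K y})).card : ℝ) ≤
        D * L * (L:ℝ) ^ (-c) := by
  obtain ⟨c, C, hc, hc1, hC, h⟩ := Pool.Agent.Y940.PA.ap
  have hGR : (2:ℝ) ≤ G := by exact_mod_cast hG
  have hKR : (1:ℝ) ≤ K := by exact_mod_cast hK
  have hGK : (1:ℝ) ≤ (G:ℝ)^K := one_le_pow₀ (by linarith)
  have hl2 := Real.log_two_gt_d9
  have hlG : Real.log 2 ≤ Real.log G := Real.log_le_log (by norm_num) hGR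
  have hlG0 : 0 < Real.log G := by linarith
  have hden : 1 ≤ 6 * (G:ℝ)^K * K * Real.log G := by
    have h1 : (1:ℝ) ≤ (G:ℝ)^K * K := by nlinarith
    nlinarith
  refine ⟨(G + 1) * (2 * C * (G:ℝ)^K), c / (6 * (G:ℝ)^K * K * Real.log G), by positivity, by positivity,
    ?_, ?_⟩
  · rw [div_le_one (by linarith)]
    linarith
  intro x θ hθ L hL
  have hirr : Irrational θ := by
    by_contra hcon
    exact hθ hcon
  have hLr : (1:ℝ) ≤ L := by exact_mod_cast hL
  -- one base
  have hone : ∀ g ∈ Finset.range (G + 1), (((Finset.range L).filter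
      (fun j : ℕ => 2 ≤ g ∧ ¬ AllWords g K (x + j • θ))).card : ℝ) ≤
        (2 * C * (G:ℝ)^K) * L * (L:ℝ) ^ (-(c / (6 * (G:ℝ)^K * K * Real.log G))) := by
    intro g hg
    have hgG : g ≤ G := by
      have := Finset.mem_range.1 hg
      omega
    by_cases hg2 : 2 ≤ g
    · have hgR : (2:ℝ) ≤ g := by exact_mod_cast hg2
      have hgGR : (g:ℝ) ≤ G := by exact_mod_cast hgG
      have hgK0 : (0:ℝ) < (g:ℝ)^K := by positivity
      have hgK : (1:ℝ) ≤ (g:ℝ)^K := one_le_pow₀ (by linarith)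
      have hlg : 0 < Real.log g := Real.log_pos (by linarith)
      set ε : ℝ := 1 / (2 * (g:ℝ)^K) with hε
      have hε0 : 0 < ε := by positivity
      have hε2 : ε ≤ 1/2 := by
        rw [hε, div_le_div_iff₀ (by positivity) (by norm_num)]
        linarith
      have hloge : Real.log (g / ε) ≤ 3 * K * Real.log g := by
        have e1 : (g:ℝ) / ε = 2 * (g:ℝ)^(K+1) := by
          rw [hε]
          field_simp
          ring
        rw [e1, Real.log_mul (by norm_num) (by positivity), Real.log_pow]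
        have h2 : Real.log 2 ≤ Real.log g := Real.log_le_log (by norm_num) hgR
        push_cast
        nlinarith
      obtain ⟨hlog, _⟩ := Pool.Agent.Y940.PA.log_one hg2 hε0 hε2
      have hlog0 : 0 < Real.log (g/ε) := by linarith
      have hHB : θ ∉ HB g L := by
        rintro ⟨q, hq1, hq2, j, m, hm⟩
        have h3 : Irrational (((g ^ j * q : ℕ) : ℝ) * θ) :=
          hirr.natCast_mul (Nat.mul_pos (pow_pos (by omega) j) (by omega)).ne'
        apply h3
        refine ⟨(m:ℚ), ?_⟩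
        push_cast
        rw [← hm]
        ring
      have h1 := h g hg2 ε hε0 hε2 L x θ hHB L hL le_rfl
      have h2 : (((Finset.range L).filter (fun j : ℕ => 2 ≤ g ∧ ¬ AllWords g K (x + j • θ))).card : ℝ) ≤
          (((Finset.range L).filter (fun j : ℕ => x + j • θ ∈ {β : ℝ | BadP g ε β})).card : ℝ) := by
        have : ((Finset.range L).filter (fun j : ℕ => 2 ≤ g ∧ ¬ AllWords g K (x + j • θ))).card ≤
            ((Finset.range L).filter (fun j : ℕ => x + j • θ ∈ {β : ℝ | BadP g ε β})).card := by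
          apply Finset.card_le_card
          intro j hj
          rw [Finset.mem_filter] at hj ⊢
          exact ⟨hj.1, badP_of_not hg2 hj.2.2⟩
        exact_mod_cast this
      refine h2.trans (h1.trans ?_)
      have hCe : C / ε ≤ 2 * C * (G:ℝ)^K := by
        have e1 : C / ε = 2 * C * (g:ℝ)^K := by
          rw [hε]
          field_simp
        rw [e1]
        have : (g:ℝ)^K ≤ (G:ℝ)^K := pow_le_pow_left₀ (by linarith) hgGR K
        gcongr
      have hexp : c / (6 * (G:ℝ)^K * K * Real.log G) ≤ c * ε / Real.log (g / ε) := by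
        have e1 : c / (6 * (G:ℝ)^K * K * Real.log G) = c * (1 / (2 * (G:ℝ)^K)) / (3 * K * Real.log G) := by
          field_simp
          ring
        rw [e1]
        have h4 : (1:ℝ) / (2 * (G:ℝ)^K) ≤ ε := by
          rw [hε]
          apply one_div_le_one_div_of_le (by positivity)
          have : (g:ℝ)^K ≤ (G:ℝ)^K := pow_le_pow_left₀ (by linarith) hgGR K
          linarith
        have h5 : Real.log (g / ε) ≤ 3 * K * Real.log G := by
          refine hloge.trans ?_
          have : Real.log g ≤ Real.log G := Real.log_le_log (by linarith) hgGR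
          gcongr
        have h6 : c * (1 / (2 * (G:ℝ)^K)) ≤ c * ε := mul_le_mul_of_nonneg_left h4 hc.le
        exact div_le_div₀ (by positivity) h6 hlog0 h5
      have h7 : (L:ℝ) ^ (-(c * ε / Real.log (g / ε))) ≤
          (L:ℝ) ^ (-(c / (6 * (G:ℝ)^K * K * Real.log G))) :=
        Real.rpow_le_rpow_of_exponent_le hLr (by linarith)
      have h8 : C / ε * L ≤ 2 * C * (G:ℝ)^K * L := mul_le_mul_of_nonneg_right hCe (by linarith)
      exact mul_le_mul h8 h7 (by positivity) (by positivity)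
    · have h0 : (Finset.range L).filter (fun j : ℕ => 2 ≤ g ∧ ¬ AllWords g K (x + j • θ)) = ∅ := by
        rw [Finset.filter_eq_empty_iff]
        intro j _ hj
        exact hg2 hj.1
      rw [h0]
      simp only [Finset.card_empty, Nat.cast_zero]
      positivity
  have hsub : (Finset.range L).filter (fun j : ℕ => x + j • θ ∈ {y | Exceptional G K y}) ⊆
      (Finset.range (G + 1)).biUnion (fun g => (Finset.range L).filter
        (fun j : ℕ => 2 ≤ g ∧ ¬ AllWords g K (x + j • θ))) := by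
    intro j hj
    obtain ⟨hj1, g, hg1, hg2, hg3⟩ := Finset.mem_filter.1 hj
    rw [Finset.mem_biUnion]
    exact ⟨g, Finset.mem_range.2 (by omega), Finset.mem_filter.2 ⟨hj1, hg1, hg3⟩⟩
  have h1 : (((Finset.range L).filter (fun j : ℕ => x + j • θ ∈ {y | Exceptional G K y})).card : ℝ) ≤
      ∑ g ∈ Finset.range (G + 1), (((Finset.range L).filter
        (fun j : ℕ => 2 ≤ g ∧ ¬ AllWords g K (x + j • θ))).card : ℝ) := by
    exact_mod_cast (Finset.card_le_card hsub).trans Finset.card_biUnion_le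
  refine h1.trans ((Finset.sum_le_sum hone).trans (le_of_eq ?_))
  rw [Finset.sum_const, Finset.card_range, nsmul_eq_mul]
  push_cast
  ring

/-- (1) For all `G ≥ 2`, `K ≥ 1`, `η > 0` there is `C` such that every finite nonempty set `B` of exceptional numbers, no
two of which differ by a rational number, with at least `|B| ^ 3 / T` additive quadruples (`Finset.addEnergy` is their
number), satisfies `log |B| ≤ C (1 + log T) ^ (2 + η)`. (2) So if `|A + A| ≤ T |A|`, no two elements of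
`A` differ by a rational number and at least `|A| / S` elements of `A` are exceptional then
`log |A| ≤ C (1 + log T + log S) ^ (2 + η)`. -/
theorem result : ∀ (G K : ℕ) (η : ℝ), 2 ≤ G → 1 ≤ K → 0 < η → ∃ C : ℝ, 0 < C ∧
    (∀ (B : Finset ℝ) (T : ℝ), 1 ≤ T → B.Nonempty → Free B → (∀ y ∈ B, Exceptional G K y) →
      (B.card : ℝ) ^ 3 ≤ T * ((Finset.addEnergy B B : ℕ) : ℝ) →
      Real.log B.card ≤ C * (1 + Real.log T) ^ (2 + η)) ∧
    (∀ (A B : Finset ℝ) (T S : ℝ), 1 ≤ T → 1 ≤ S → A.Nonempty → Free A → ((A + A).card : ℝ) ≤ T * A.card →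
      B ⊆ A → (∀ y ∈ B, Exceptional G K y) → (A.card : ℝ) ≤ S * B.card →
      Real.log A.card ≤ C * (1 + Real.log T + Real.log S) ^ (2 + η)) := by
  intro G K η hG hK hη
  obtain ⟨D, c, hD, hc, hc1, hAP⟩ := ap_all G K hG hK
  obtain ⟨C₁, hC₁, h⟩ := energy_pow D c η hD hc hc1 hη
  have part1 : ∀ (B : Finset ℝ) (T : ℝ), 1 ≤ T → B.Nonempty → Free B → (∀ y ∈ B, Exceptional G K y) →
      (B.card : ℝ) ^ 3 ≤ T * ((Finset.addEnergy B B : ℕ) : ℝ) →
      Real.log B.card ≤ C₁ * (1 + Real.log T) ^ (2 + η) := by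
    intro B T hT hB hF hBE hE
    refine h Pool.Agent.Y56.LW.real_tf {t : ℝ | ¬ Irrational t} {y | Exceptional G K y} ?_ ?_ B T hT hB
      hBE ?_ hE
    · intro L x hx hcon
      rw [nsmul_eq_mul] at hcon
      exact hx (hcon.of_natCast_mul L)
    · intro x θ hθ L hL
      convert hAP x θ hθ L hL using 1
    · intro b hb b' hb' hne hcon
      exact hcon (hF b hb b' hb' hne)
  refine ⟨C₁ + 1, by linarith, ?_, ?_⟩
  · intro B T hT hB hF hBE hE
    refine (part1 B T hT hB hF hBE hE).trans ?_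
    have hT0 := Real.log_nonneg hT
    apply mul_le_mul_of_nonneg_right (by linarith)
    exact Real.rpow_nonneg (by linarith) _
  · intro A B T S hT hS hA hF hAA hBA hBE hAB
    have hT0 := Real.log_nonneg hT
    have hS0 := Real.log_nonneg hS
    have hApos : (0:ℝ) < A.card := by exact_mod_cast hA.card_pos
    have hBpos : (0:ℝ) < B.card := by
      by_contra hcon
      push Not at hcon
      have : S * (B.card : ℝ) ≤ 0 := mul_nonpos_of_nonneg_of_nonpos (by linarith) hcon
      linarith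
    have hB : B.Nonempty := by
      rw [← Finset.card_pos]
      exact_mod_cast hBpos
    have h1 : (B.card : ℝ) ^ 2 * (B.card : ℝ) ^ 2 ≤
        ((B + B).card : ℝ) * ((Finset.addEnergy B B : ℕ) : ℝ) := by
      exact_mod_cast Finset.le_card_add_mul_addEnergy B B
    have h2 : ((B + B).card : ℝ) ≤ T * S * B.card := by
      have h3 : ((B + B).card : ℝ) ≤ (A + A).card := by
        exact_mod_cast Finset.card_le_card (Finset.add_subset_add hBA hBA)
      calc ((B + B).card : ℝ) ≤ T * A.card := h3.trans hAA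
        _ ≤ T * (S * B.card) := mul_le_mul_of_nonneg_left hAB (by linarith)
        _ = _ := by ring
    have h4 : (B.card : ℝ) ^ 3 ≤ T * S * ((Finset.addEnergy B B : ℕ) : ℝ) := by
      have h5 : (B.card : ℝ) * (B.card : ℝ) ^ 3 ≤ (B.card : ℝ) * (T * S * ((Finset.addEnergy B B : ℕ) : ℝ)) := by
        calc (B.card : ℝ) * (B.card : ℝ) ^ 3 = (B.card : ℝ) ^ 2 * (B.card : ℝ) ^ 2 := by ring
          _ ≤ ((B + B).card : ℝ) * ((Finset.addEnergy B B : ℕ) : ℝ) := h1
          _ ≤ (T * S * B.card) * ((Finset.addEnergy B B : ℕ) : ℝ) :=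
            mul_le_mul_of_nonneg_right h2 (Nat.cast_nonneg _)
          _ = _ := by ring
      exact le_of_mul_le_mul_left h5 hBpos
    have h6 := part1 B (T * S) (by nlinarith) hB (fun x hx y hy => hF x (hBA hx) y (hBA hy)) hBE h4
    rw [Real.log_mul (by linarith) (by linarith), ← add_assoc] at h6
    have h7 : Real.log A.card ≤ Real.log S + Real.log B.card := by
      have := Real.log_le_log hApos hAB
      rwa [Real.log_mul (by linarith) (by linarith)] at this
    obtain ⟨u, hu⟩ : ∃ u : ℝ, u = 1 + Real.log T + Real.log S := ⟨_, rfl⟩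
    rw [← hu] at h6 ⊢
    have hu1 : 1 ≤ u := by rw [hu]; linarith
    have h8 : Real.log S ≤ u ^ (2 + η) := by
      calc Real.log S ≤ u := by rw [hu]; linarith
        _ = u ^ (1:ℝ) := (Real.rpow_one u).symm
        _ ≤ _ := Real.rpow_le_rpow_of_exponent_le hu1 (by linarith)
    linarith

end Pool.Agent.Results.MP_5b6025_nt.ExceptionalEnergy
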