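import Pool.Agent.V60.FSA
import Pool.Agent.Results.MP_7e9a3a_nt.DigitRelations

/-!
# Finite-state machines make many mistakes in suitable bases

A machine with finitely many states reads the digits of `x` in base `b` one after the other and,
before it reads the next digit, it announces a guess, which depends on its state only.

Let `x` be a real algebraic number and `K = ℚ(x)`.  If all primes of `K` above the prime number `p` are
ramified, then in every base not divisible by `p` every machine makes at least `c N^δ` wrong guesses
for the first `N` digits of `x`, with `c, δ > 0` which depend only on `x`, the base and the number of the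
states.  There is such a `p` (or another one with the same conclusion) if `K` has a subfield different
from `ℚ` which is a Galois extension of `ℚ`; for `x = √2` one may take `p = 2`.

Proof.  A machine with few mistakes sees a sequence of digits which is periodic, with a period at most
`S`, far from its mistakes, so that `a_(k+P) = a_k`, `P = S!`, away from the mistakes; the number of
failures of such a relation between the digits is bounded from below in the starting file
`MP_7e9a3a_nt.DigitRelations`.
-/

set_option autoImplicit false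

namespace Pool.Agent.Results.MP_5b6025_nt.FiniteStatePredictionPower

open Finset Pool.Agent NumberField IntermediateField

/-- the `i`-th digit of `x` after the point in base `b` -/
noncomputable def digit (b : ℕ) (x : ℝ) (i : ℕ) : ℤ := ⌊x * (b : ℝ) ^ i⌋ % (b : ℤ)

/-- A machine with the set of states `Q`: the transition function, the guess announced in each
state, and the initial state. -/
structure Machine (Q : Type) where
  next : Q → ℤ → Q
  guess : Q → ℤ
  start : Q

/-- The state of the machine after it has read the digits number `A + 1, …, A + i` of `x` in base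
`b`. -/
noncomputable def Machine.state {Q : Type} (M : Machine Q) (b : ℕ) (x : ℝ) (A : ℕ) : ℕ → Q
  | 0 => M.start
  | i + 1 => M.next (M.state b x A i) (digit b x (A + i + 1))

/-- The number of the wrong guesses for the digits number `A + 1, …, A + n` of `x` in base `b`:
the guess for the digit number `A + i + 1` is announced when the machine has read the digits number
`A + 1, …, A + i`. -/
noncomputable def Machine.errors {Q : Type} (M : Machine Q) (b : ℕ) (x : ℝ) (A n : ℕ) : ℕ :=
  ((range n).filter (fun i => M.guess (M.state b x A i) ≠ digit b x (A + i + 1))).card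

theorem state_eq {Q : Type} (M : Machine Q) (b : ℕ) (x : ℝ) (A i : ℕ) :
    M.state b x A i = V60.FSP.st M.next (V60.FSP.dg b x) M.start A i := by
  induction i with
  | zero => rfl
  | succ i ih =>
    rw [V60.FSP.st_step, ← ih]
    rfl

theorem errors_eq {Q : Type} [Fintype Q] (M : Machine Q) (b : ℕ) (x : ℝ) (A n : ℕ) :
    M.errors b x A n = V60.FSP.err M.next M.guess (V60.FSP.dg b x) M.start A n := by
  unfold Machine.errors V60.FSP.err
  congr 1
  apply Finset.filter_congr
  intro i _
  rw [state_eq]
  rfl

/-- bases prime to some prime number -/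
theorem power (x : ℝ) (b : ℕ) (hb : 2 ≤ b)
    (hx : Pool.Agent.Results.MP_7e9a3a_nt.DigitRelations.RelationsFail x b) (S A : ℕ) :
    ∃ c δ : ℝ, 0 < c ∧ 0 < δ ∧ ∃ N₁ : ℕ, ∀ (Q : Type) [Fintype Q], Fintype.card Q ≤ S →
      ∀ (M : Machine Q) (n : ℕ), N₁ ≤ A + n →
        c * ((A + n : ℕ) : ℝ) ^ δ ≤ M.errors b x A n := by
  have hP : 0 < S.factorial := Nat.factorial_pos S
  obtain ⟨c, δ, hc, hδ, h⟩ := hx S.factorial
    (fun j => if j = 0 then -1 else if j = S.factorial then 1 else 0) 0 (by
      rw [sum_range_succ, if_neg hP.ne', if_pos rfl, one_mul, sum_eq_single_of_mem 0 (mem_range.2 hP)]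
      · rw [if_pos rfl, pow_zero]
        have : (1 : ℤ) < (b : ℤ) ^ S.factorial := one_lt_pow₀ (by exact_mod_cast hb) hP.ne'
        intro h0
        linarith
      · intro j hj hj0
        rw [mem_range] at hj
        rw [if_neg hj0, if_neg (by omega), zero_mul])
  obtain ⟨N₀, hN₀⟩ := Filter.eventually_atTop.1 h
  obtain ⟨c', hc', N₁, h'⟩ := V60.FSA.transfer (V60.FSP.dg b x) S A
    (fun N : ℕ => (N : ℝ) ^ δ) ((tendsto_rpow_atTop hδ).comp tendsto_natCast_atTop_atTop) c hc N₀
    (fun N hN => by
      refine (hN₀ N hN).trans ?_
      have hle : ((Finset.range N).filter (fun k : ℕ =>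
          ∑ j ∈ Finset.range (S.factorial + 1),
            (if j = 0 then (-1 : ℤ) else if j = S.factorial then 1 else 0) *
              Pool.Agent.Results.MP_7e9a3a_nt.DigitRelations.digit x b (k + 1 + j) ≠ 0)).card ≤
          ((Icc 1 N).filter (fun k => V60.FSP.dg b x (k + S.factorial) ≠ V60.FSP.dg b x k)).card := by
        apply card_le_card_of_injOn (fun k => k + 1)
        · intro k hk
          rw [mem_coe, mem_filter, mem_range] at hk
          rw [mem_coe, mem_filter, mem_Icc]
          have hkN := hk.1
          refine ⟨⟨Nat.succ_pos k, hkN⟩, fun h0 => hk.2 ?_⟩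
          rw [sum_range_succ, if_neg hP.ne', if_pos rfl, one_mul,
            sum_eq_single_of_mem 0 (mem_range.2 hP)]
          · rw [if_pos rfl, Nat.add_zero]
            have e1 : Pool.Agent.Results.MP_7e9a3a_nt.DigitRelations.digit x b (k + 1) =
                V60.FSP.dg b x (k + 1) := rfl
            have e2 : Pool.Agent.Results.MP_7e9a3a_nt.DigitRelations.digit x b (k + 1 + S.factorial) =
                V60.FSP.dg b x (k + 1 + S.factorial) := rfl
            rw [e1, e2]
            have h1 : V60.FSP.dg b x (k + 1 + S.factorial) = V60.FSP.dg b x (k + 1) := h0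
            rw [h1]
            ring
          · intro j hj hj0
            rw [mem_range] at hj
            rw [if_neg hj0, if_neg (by omega), zero_mul]
        · intro k _ k' _ h0
          have h1 : k + 1 = k' + 1 := h0
          omega
      exact_mod_cast hle)
  refine ⟨c', δ, hc', hδ, N₁, fun Q _ hQ M n hn => ?_⟩
  rw [errors_eq]
  exact h' Q hQ M.next M.guess M.start n hn

/-- **Finite-state machines make many mistakes in suitable bases.**  Let `x` be a real algebraic
number.
(1) If `p` is a prime number such that every prime of `ℚ(x)` above `p` is ramified, then for every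
base `b ≥ 2` not divisible by `p` and all `S`, `A` there are `c, δ > 0` such that every machine with at
most `S` states makes at least `c N^δ` wrong guesses for the digits number `A + 1, …, N` of `x` in
base `b`, for all large `N = A + n`.
(2) If `ℚ(x)` has a subfield `L ≠ ℚ` which is a Galois extension of `ℚ`, then there is a prime number
`p` such that the same holds in all bases `b ≥ 2` not divisible by `p`. -/
theorem result (x : ℝ) (halg : IsAlgebraic ℚ x) :
    (∀ p : ℕ, p.Prime →
      (∀ P : Ideal (𝓞 ℚ⟮x⟯), P.IsPrime → (p : 𝓞 ℚ⟮x⟯) ∈ P → (p : 𝓞 ℚ⟮x⟯) ∈ P ^ 2) →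
      ∀ b : ℕ, 2 ≤ b → ¬ p ∣ b → ∀ S A : ℕ, ∃ c δ : ℝ, 0 < c ∧ 0 < δ ∧ ∃ N₁ : ℕ,
        ∀ (Q : Type) [Fintype Q], Fintype.card Q ≤ S → ∀ (M : Machine Q) (n : ℕ), N₁ ≤ A + n →
          c * ((A + n : ℕ) : ℝ) ^ δ ≤ M.errors b x A n) ∧
    (∀ L : IntermediateField ℚ ℚ⟮x⟯, L ≠ ⊥ → IsGalois ℚ L → ∃ p : ℕ, p.Prime ∧
      ∀ b : ℕ, 2 ≤ b → ¬ p ∣ b → ∀ S A : ℕ, ∃ c δ : ℝ, 0 < c ∧ 0 < δ ∧ ∃ N₁ : ℕ,
        ∀ (Q : Type) [Fintype Q], Fintype.card Q ≤ S → ∀ (M : Machine Q) (n : ℕ), N₁ ≤ A + n →
          c * ((A + n : ℕ) : ℝ) ^ δ ≤ M.errors b x A n) := by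
  obtain ⟨h1, h2⟩ := Pool.Agent.Results.MP_7e9a3a_nt.DigitRelations.result x halg
  refine ⟨fun p hp hram b hb hpb S A => power x b hb (h1 p hp hram b hb hpb) S A,
    fun L hL hgal => ?_⟩
  obtain ⟨p, hp, h⟩ := h2 L hL hgal
  exact ⟨p, hp, fun b hb hpb S A => power x b hb (h b hb hpb) S A⟩

end Pool.Agent.Results.MP_5b6025_nt.FiniteStatePredictionPower
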