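import Pool.Agent.V11115.SparseOnes2

/-!
# Exponential sums over the places of the digits of a square root

Let `x_0 = ⌊√d⌋` and let `x_1, x_2, …` be the base `b` digits of `√d`, where `d` is not a square,
and `s(r) = ∑ x_k r^k` (`ss`), `S(z) = ∑ x_k z^k` (`SS`), `A_j(r) = ∑_{k ≡ j (m)} x_k r^k` (`aa`).
Let `g = 2` if `b` and `d` are even and `g = 1` otherwise (`g0`). The known lower bound for the
number of nonzero digits says `s(r)² ≥ (g (b - 1) - o(1)) / (1 - r)` as `r → 1`; the excess is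
`E(r) = s(r)² - g (b - 1) / (1 - r)` (`EE`).

The sums `S(r ζ)`, `ζ ≠ 1` on the unit circle, and the differences `A_j(r) - s(r) / m` are bounded
in terms of the excess: if there are as few nonzero digits as the known bound allows, then their
places are equidistributed modulo every `m`. No hypothesis is assumed.
-/

set_option autoImplicit false

namespace Pool.Agent.Results.MP_5b6025_nt.SparseOnes

open Finset Filter Topology Pool.Agent.V11115.SO

/-- The result. For `d = b = 2`: `g = 2`, `g (b - 1) = 2` and `√(b² + 1) / (b - 1) = √5`. -/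
theorem result (b d : ℕ) (hb : 2 ≤ b) (hd : ¬ IsSquare d) :
    (∀ z : ℂ, ‖z‖ < 1 → 1 < b * ‖z‖ →
      ‖SS b (Real.sqrt d) z ^ 2 - d -
          (b * z - 1) * ∑' n, (gg b d (Real.sqrt d) n : ℂ) * z ^ n‖ ≤
        ‖(b : ℂ) * z - 1‖ * ((ss b (Real.sqrt d) ‖z‖ ^ 2 - d) / (b * ‖z‖ - 1) -
          ∑' n, (gg b d (Real.sqrt d) n : ℝ) * ‖z‖ ^ n)) ∧
    (∀ ζ : ℂ, ‖ζ‖ = 1 → ζ ≠ 1 → ∀ r : ℝ, 3 / 4 ≤ r → r < 1 →
      ‖SS b (Real.sqrt d) (r * ζ)‖ ^ 2 ≤
        ‖(b : ℂ) * ζ - 1‖ / (b - 1) * EE b d r +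
          (19 * b + 2 * d + 14) / ‖1 - ζ‖ *
            (Real.sqrt (1 - r) * ss b (Real.sqrt d) r ^ 2)) ∧
    (∀ m : ℕ, 1 ≤ m → ∃ C : ℝ, ∀ r : ℝ, 3 / 4 ≤ r → r < 1 →
      ∑ j ∈ range m, (aa b (Real.sqrt d) m j r - ss b (Real.sqrt d) r / m) ^ 2 ≤
        Real.sqrt (b ^ 2 + 1) / (b - 1) * EE b d r +
          C * (Real.sqrt (1 - r) * ss b (Real.sqrt d) r ^ 2)) ∧
    (∀ r : ℕ → ℝ, (∀ i, r i < 1) → Tendsto r atTop (𝓝 1) →
      Tendsto (fun i => (1 - r i) * ss b (Real.sqrt d) (r i) ^ 2) atTop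
        (𝓝 ((g0 b d : ℝ) * ((b : ℝ) - 1))) →
      ∀ m j : ℕ, j < m →
        Tendsto (fun i => aa b (Real.sqrt d) m j (r i) / ss b (Real.sqrt d) (r i)) atTop
          (𝓝 (1 / m))) := by
  refine ⟨fun z hz hz' => main_ineq hb hd hz hz', fun ζ hζ hζ1 r h0 h1 =>
    circle hb hd hζ hζ1 h0 h1, fun m hm => residues hb hd hm, ?_⟩
  intro r hr1 hr hlim m j hj
  have hbR : (2 : ℝ) ≤ b := by exact_mod_cast hb
  obtain ⟨C, hC⟩ := residues hb hd (by omega : 1 ≤ m)
  set L : ℝ := g0 b d * ((b : ℝ) - 1) with hL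
  have hg1 : (1 : ℝ) ≤ g0 b d := by exact_mod_cast one_le_g0 b d
  have hL0 : 0 < L := by
    rw [hL]; exact mul_pos (by linarith) (by linarith)
  -- the bound for the square of the difference
  have hsq : Tendsto (fun i => Real.sqrt (b ^ 2 + 1) / (b - 1) *
      (1 - L * ((1 - r i) * ss b (Real.sqrt d) (r i) ^ 2)⁻¹) + C * Real.sqrt (1 - r i))
      atTop (𝓝 0) := by
    have h1 : Tendsto (fun i => 1 - L * ((1 - r i) * ss b (Real.sqrt d) (r i) ^ 2)⁻¹) atTop
        (𝓝 (1 - L * L⁻¹)) := tendsto_const_nhds.sub ((hlim.inv₀ hL0.ne').const_mul L)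
    have h2 : Tendsto (fun i => Real.sqrt (1 - r i)) atTop (𝓝 (Real.sqrt (1 - 1))) :=
      (Real.continuous_sqrt.tendsto _).comp (tendsto_const_nhds.sub hr)
    have h3 := (h1.const_mul (Real.sqrt (b ^ 2 + 1) / (b - 1))).add (h2.const_mul C)
    rw [mul_inv_cancel₀ hL0.ne'] at h3
    simpa using h3
  have hsq2 : Tendsto (fun i => (aa b (Real.sqrt d) m j (r i) / ss b (Real.sqrt d) (r i) -
      1 / m) ^ 2) atTop (𝓝 0) := by
    refine tendsto_of_tendsto_of_tendsto_of_le_of_le' tendsto_const_nhds hsq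
      (Eventually.of_forall fun i => by positivity) ?_
    filter_upwards [hr.eventually (lt_mem_nhds (by norm_num : (3 / 4 : ℝ) < 1))] with i hi
    have hC' := hC (r i) hi.le (hr1 i)
    have hone : (aa b (Real.sqrt d) m j (r i) - ss b (Real.sqrt d) (r i) / m) ^ 2 ≤
        ∑ j ∈ range m, (aa b (Real.sqrt d) m j (r i) - ss b (Real.sqrt d) (r i) / m) ^ 2 :=
      single_le_sum (f := fun j => (aa b (Real.sqrt d) m j (r i) -
        ss b (Real.sqrt d) (r i) / m) ^ 2) (fun _ _ => sq_nonneg _) (mem_range.2 hj)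
    have hf := (facts hb hd hi.le (hr1 i)).1
    have hinv := inv_le hb hd hi.le (hr1 i)
    have hr0 : 0 < 1 - r i := by linarith [hr1 i]
    have hs0 : 0 ≤ ss b (Real.sqrt d) (r i) := ss_nonneg _ _ (by linarith)
    unfold EE at hC'
    set s := ss b (Real.sqrt d) (r i) with hs
    have hs1 : 0 < s ^ 2 := by
      have : 0 < 1 / (1 - r i) := by positivity
      linarith
    have hs2 : 0 < s := by
      rcases hs0.lt_or_eq with h | h
      · exact h
      · rw [← h] at hs1; norm_num at hs1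
    have e1 : (aa b (Real.sqrt d) m j (r i) / s - 1 / m) ^ 2 =
        (aa b (Real.sqrt d) m j (r i) - s / m) ^ 2 / s ^ 2 := by
      rw [← div_pow, sub_div]
      congr 2
      field_simp
    rw [e1, div_le_iff₀ hs1]
    refine hone.trans (hC'.trans (le_of_eq ?_))
    rw [hL]
    field_simp
  have h4 : Tendsto (fun i => |aa b (Real.sqrt d) m j (r i) / ss b (Real.sqrt d) (r i) -
      1 / m|) atTop (𝓝 0) := by
    have h5 : Tendsto (fun i => Real.sqrt ((aa b (Real.sqrt d) m j (r i) /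
        ss b (Real.sqrt d) (r i) - 1 / m) ^ 2)) atTop (𝓝 (Real.sqrt 0)) :=
      (Real.continuous_sqrt.tendsto _).comp hsq2
    simpa [Real.sqrt_sq_eq_abs] using h5
  have h6 := (tendsto_zero_iff_abs_tendsto_zero _).2 h4
  have h7 := h6.add_const (1 / (m : ℝ))
  simpa using h7

end Pool.Agent.Results.MP_5b6025_nt.SparseOnes
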